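import Pool.Agent.W665.JCB.MatB

/-!
# Lower bound for multiplicatively bounded maps
-/

set_option autoImplicit false
open scoped CStarMatrix

noncomputable section

namespace Pool.Agent.W665.JCB

open Finset

section
variable {ι : Type} {n : ℕ} [NeZero n]

lemma dl_mul_self (x : ι) : dl x * dl x = dl x := by
  ext z
  rw [lp.infty_coeFn_mul]
  by_cases hz : z = x
  · subst hz
    simp [dl_same]
  · simp [dl_ne hz]

lemma dl_mul_ne {x y : ι} (hxy : x ≠ y) : dl x * dl y = 0 := by
  ext z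
  rw [lp.infty_coeFn_mul]
  by_cases hz : z = x
  · subst hz
    simp [dl_ne hxy]
  · simp [dl_ne hz]

lemma dl_star (x : ι) : star (dl x) = dl x := by
  ext z
  rw [lp.coeFn_star]
  by_cases hz : z = x
  · subst hz
    simp [dl_same]
  · simp [dl_ne hz]

/-- indicator of the whole block -/
def EE (pt : ZMod n → ι) : LI ι := ∑ i, dl (pt i)

lemma EE_mul (pt : ZMod n → ι) (hpt : Function.Injective pt) : EE pt * EE pt = EE pt := by
  unfold EE
  rw [Finset.sum_mul]
  refine Finset.sum_congr rfl (fun i _ => ?_)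
  rw [Finset.mul_sum, Finset.sum_eq_single i]
  · exact dl_mul_self _
  · intro j _ hj
    exact dl_mul_ne (fun h => hj (hpt h).symm)
  · simp

end

section
variable {ι : Type} [PartialOrder (LI ι)] [StarOrderedRing (LI ι)] {n : ℕ} [NeZero n]

/-- monomial test matrix -/
def tA (pt : ZMod n → ι) (eq : Fin n ≃ ZMod n) (z : ZMod n → ZMod n → ℂ)
    (σ : ZMod n → ZMod n → ZMod n) : CStarMatrix (Fin n) (Fin n) (LI ι) :=
  CStarMatrix.ofMatrix (fun r s => z (eq r) (eq s) • dl (pt (σ (eq r) (eq s))))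

/-- column test matrix -/
def tB (pt : ZMod n → ι) (eq : Fin n ≃ ZMod n) (l0 : Fin n) : CStarMatrix (Fin n) (Fin n) (LI ι) :=
  CStarMatrix.ofMatrix (fun s l => if l = l0 then dl (pt (eq s)) else 0)

lemma tA_norm (pt : ZMod n → ι) (hpt : Function.Injective pt) (eq : Fin n ≃ ZMod n)
    (z : ZMod n → ZMod n → ℂ) (hz : ∀ r s, ‖z r s‖ = 1) (σ : ZMod n → ZMod n → ZMod n)
    (h1 : ∀ r, Function.Injective (σ r)) (h2 : ∀ s, Function.Injective (fun r => σ r s)) :
    ‖tA pt eq z σ‖ ≤ 1 := by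
  have hent : ∀ s s' : Fin n, (star (tA pt eq z σ) * tA pt eq z σ) s s' =
      if s = s' then EE pt else 0 := by
    intro s s'
    rw [CStarMatrix.mul_apply]
    have h3 : ∀ r : Fin n, (star (tA pt eq z σ)) s r * (tA pt eq z σ) r s' =
        if s = s' then dl (pt (σ (eq r) (eq s))) else 0 := by
      intro r
      rw [CStarMatrix.star_apply]
      have e1 : (tA pt eq z σ) r s = z (eq r) (eq s) • dl (pt (σ (eq r) (eq s))) := rfl
      have e2 : (tA pt eq z σ) r s' = z (eq r) (eq s') • dl (pt (σ (eq r) (eq s'))) := rfl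
      rw [e1, e2, star_smul, dl_star, smul_mul_smul_comm]
      by_cases hs : s = s'
      · subst hs
        rw [if_pos rfl, dl_mul_self]
        have : star (z (eq r) (eq s)) * z (eq r) (eq s) = 1 := by
          have := Complex.conj_mul' (z (eq r) (eq s))
          rw [hz] at this
          simpa using this
        rw [this, one_smul]
      · have hne : pt (σ (eq r) (eq s)) ≠ pt (σ (eq r) (eq s')) := by
          intro h
          exact hs (eq.injective (h1 _ (hpt h)))
        rw [dl_mul_ne hne, if_neg hs, smul_zero]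
    rw [Finset.sum_congr rfl (fun r _ => h3 r)]
    by_cases hs : s = s'
    · simp only [if_pos hs]
      unfold EE
      have hbij : Function.Bijective (fun r : Fin n => σ (eq r) (eq s)) := by
        rw [Fintype.bijective_iff_injective_and_card]
        refine ⟨fun r r' h => eq.injective (h2 _ h), Fintype.card_congr eq⟩
      exact Function.Bijective.sum_comp hbij (fun i => dl (pt i))
    · simp [if_neg hs]
  refine norm_le_one _ ?_
  ext1 s s'
  rw [CStarMatrix.mul_apply]
  simp only [hent]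
  by_cases hs : s = s'
  · subst hs
    simp [EE_mul pt hpt]
  · simp [hs]

lemma tB_norm (pt : ZMod n → ι) (hpt : Function.Injective pt) (eq : Fin n ≃ ZMod n) (l0 : Fin n) :
    ‖tB pt eq l0‖ ≤ 1 := by
  have hent : ∀ s s' : Fin n, (star (tB pt eq l0) * tB pt eq l0) s s' =
      if s = l0 ∧ s' = l0 then EE pt else 0 := by
    intro s s'
    rw [CStarMatrix.mul_apply]
    have h3 : ∀ r : Fin n, (star (tB pt eq l0)) s r * (tB pt eq l0) r s' =
        if s = l0 ∧ s' = l0 then dl (pt (eq r)) else 0 := by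
      intro r
      rw [CStarMatrix.star_apply]
      have e1 : (tB pt eq l0) r s = if s = l0 then dl (pt (eq r)) else 0 := rfl
      have e2 : (tB pt eq l0) r s' = if s' = l0 then dl (pt (eq r)) else 0 := rfl
      rw [e1, e2]
      by_cases hs : s = l0
      · by_cases hs' : s' = l0
        · simp [hs, hs', dl_star, dl_mul_self]
        · simp [hs']
      · simp [hs]
    rw [Finset.sum_congr rfl (fun r _ => h3 r)]
    by_cases hs : s = l0 ∧ s' = l0
    · simp only [if_pos hs]
      unfold EE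
      exact Equiv.sum_comp eq (fun i => dl (pt i))
    · simp [if_neg hs]
  refine norm_le_one _ ?_
  ext1 s s'
  rw [CStarMatrix.mul_apply]
  simp only [hent]
  by_cases hs : s = l0
  · by_cases hs' : s' = l0
    · simp [hs, hs', EE_mul pt hpt]
    · simp [hs']
  · simp [hs]

/-- the consequence of multiplicative boundedness for monomial data -/
theorem low {H : Type} [NormedAddCommGroup H] [InnerProductSpace ℂ H]
    (pt : ZMod n → ι) (hpt : Function.Injective pt) (h0 : H) (hh0 : ‖h0‖ = 1)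
    (φ : LI ι →ₗ[ℂ] LI ι →ₗ[ℂ] (H →L[ℂ] H)) (C : ℝ)
    (hφ : ∀ (n : ℕ) (a : CStarMatrix (Fin n) (Fin n) (LI ι))
            (b : CStarMatrix (Fin n) (Fin n) (LI ι)) (x : Fin n → H),
            ∑ i : Fin n, ‖∑ j : Fin n, ∑ k : Fin n, φ (a i k) (b k j) (x j)‖ ^ 2
              ≤ (C * ‖a‖ * ‖b‖) ^ 2 * ∑ j : Fin n, ‖x j‖ ^ 2)
    (z : ZMod n → ZMod n → ℂ) (hz : ∀ r s, ‖z r s‖ = 1) (σ : ZMod n → ZMod n → ZMod n)
    (h1 : ∀ r, Function.Injective (σ r)) (h2 : ∀ s, Function.Injective (fun r => σ r s)) :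
    ∑ r, ‖∑ s, z r s • φ (dl (pt (σ r s))) (dl (pt s)) h0‖ ^ 2 ≤ C ^ 2 := by
  classical
  let eq : Fin n ≃ ZMod n := (ZMod.finEquiv n).toEquiv
  let l0 : Fin n := ⟨0, Nat.pos_of_ne_zero (NeZero.ne n)⟩
  have hA := tA_norm pt hpt eq z hz σ h1 h2
  have hB := tB_norm pt hpt eq l0
  have h := hφ n (tA pt eq z σ) (tB pt eq l0) (fun l => if l = l0 then h0 else 0)
  have hx : ∑ j : Fin n, ‖(if j = l0 then h0 else 0 : H)‖ ^ 2 = 1 := by
    rw [Finset.sum_eq_single l0]
    · simp [hh0]
    · intro b _ hb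
      simp [hb]
    · simp
  rw [hx, mul_one] at h
  have hCC : (C * ‖tA pt eq z σ‖ * ‖tB pt eq l0‖) ^ 2 ≤ C ^ 2 := by
    rw [mul_pow, mul_pow]
    have e1 : ‖tA pt eq z σ‖ ^ 2 ≤ 1 := by
      have := norm_nonneg (tA pt eq z σ)
      nlinarith
    have e2 : ‖tB pt eq l0‖ ^ 2 ≤ 1 := by
      have := norm_nonneg (tB pt eq l0)
      nlinarith
    calc C ^ 2 * ‖tA pt eq z σ‖ ^ 2 * ‖tB pt eq l0‖ ^ 2 ≤ C ^ 2 * 1 * 1 := by gcongr
      _ = C ^ 2 := by ring
  refine le_trans (le_of_eq ?_) (h.trans hCC)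
  rw [← Equiv.sum_comp eq]
  refine Finset.sum_congr rfl (fun r _ => ?_)
  congr 2
  rw [Finset.sum_eq_single l0]
  · rw [← Equiv.sum_comp eq]
    refine Finset.sum_congr rfl (fun s _ => ?_)
    have e1 : (tA pt eq z σ) r s = z (eq r) (eq s) • dl (pt (σ (eq r) (eq s))) := rfl
    have e2 : (tB pt eq l0) s l0 = dl (pt (eq s)) := by
      have : (tB pt eq l0) s l0 = if l0 = l0 then dl (pt (eq s)) else 0 := rfl
      rw [this, if_pos rfl]
    rw [e1, e2, map_smul, LinearMap.smul_apply, if_pos rfl]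
    rfl
  · intro l _ hl
    simp [hl]
  · simp

end

end Pool.Agent.W665.JCB
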