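import Pool.Agent.W665.JCB.Block
import Pool.Agent.W665.JCB.Low

/-!
# A jointly completely bounded map `ℓ^∞ × ℓ^∞ → B(H)` which is not decomposable
-/

set_option autoImplicit false
open scoped CStarMatrix

noncomputable section

namespace Pool.Agent.W665.JCB

open Finset Filter Topology

/-! ### one block -/

section
variable {ι H : Type} [NormedAddCommGroup H] [InnerProductSpace ℂ H] {n : ℕ} [NeZero n]

lemma cf_add_left (pt : ZMod n → ι) (r : ZMod n) (a a' b : LI ι) :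
    cf pt r (a + a') b = cf pt r a b + cf pt r a' b := by
  simp only [cf, lp.coeFn_add, Pi.add_apply, add_mul, mul_add, Finset.sum_add_distrib]

lemma cf_add_right (pt : ZMod n → ι) (r : ZMod n) (a b b' : LI ι) :
    cf pt r a (b + b') = cf pt r a b + cf pt r a b' := by
  simp only [cf, lp.coeFn_add, Pi.add_apply, mul_add, Finset.sum_add_distrib]

lemma cf_smul_left (pt : ZMod n → ι) (r : ZMod n) (c : ℂ) (a b : LI ι) :
    cf pt r (c • a) b = c * cf pt r a b := by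
  simp only [cf, lp.coeFn_smul, Pi.smul_apply, smul_eq_mul, Finset.mul_sum]
  refine Finset.sum_congr rfl (fun j _ => ?_)
  ring

lemma cf_smul_right (pt : ZMod n → ι) (r : ZMod n) (c : ℂ) (a b : LI ι) :
    cf pt r a (c • b) = c * cf pt r a b := by
  simp only [cf, lp.coeFn_smul, Pi.smul_apply, smul_eq_mul, Finset.mul_sum]
  refine Finset.sum_congr rfl (fun j _ => ?_)
  ring

lemma blk_add_left (pt : ZMod n → ι) (e : ZMod n → H) (a a' b : LI ι) :
    blk pt e (a + a') b = blk pt e a b + blk pt e a' b := by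
  simp only [blk, cf_add_left, add_smul, Finset.sum_add_distrib]

lemma blk_add_right (pt : ZMod n → ι) (e : ZMod n → H) (a b b' : LI ι) :
    blk pt e a (b + b') = blk pt e a b + blk pt e a b' := by
  simp only [blk, cf_add_right, add_smul, Finset.sum_add_distrib]

lemma blk_smul_left (pt : ZMod n → ι) (e : ZMod n → H) (c : ℂ) (a b : LI ι) :
    blk pt e (c • a) b = c • blk pt e a b := by
  simp only [blk, cf_smul_left, mul_smul, Finset.smul_sum]

lemma blk_smul_right (pt : ZMod n → ι) (e : ZMod n → H) (c : ℂ) (a b : LI ι) :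
    blk pt e a (c • b) = c • blk pt e a b := by
  simp only [blk, cf_smul_right, mul_smul, Finset.smul_sum]

end

section
variable {ι H : Type} [NormedAddCommGroup H] [InnerProductSpace ℂ H] {n : ℕ} [Fact n.Prime]

/-- the constant of the block of size `n` -/
def JJ (n : ℕ) : ℝ := Real.sqrt (2 * (n : ℝ) ^ 2 * Real.sqrt n)

lemma JJ_sq (n : ℕ) : JJ n ^ 2 = 2 * (n : ℝ) ^ 2 * Real.sqrt n :=
  Real.sq_sqrt (by positivity)

lemma JJ_nonneg (n : ℕ) : 0 ≤ JJ n := Real.sqrt_nonneg _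

lemma blk_norm (hn : n ≠ 2) (pt : ZMod n → ι) (e : ZMod n → H)
    (he : ∀ z : ZMod n → ℂ, ‖∑ r, z r • e r‖ ^ 2 = ∑ r, ‖z r‖ ^ 2) (a b : LI ι) :
    ‖blk pt e a b‖ ≤ JJ n * (‖a‖ * ‖b‖) := by
  refine le_of_sq_le_sq ?_ (mul_nonneg (JJ_nonneg n) (by positivity))
  rw [mul_pow, JJ_sq]
  unfold blk
  rw [he]
  have hap : ∀ (x : LI ι) (i : ι), ‖(x : ι → ℂ) i‖ ≤ ‖x‖ := fun x i =>
    lp.norm_apply_le_norm (p := ⊤) (by simp) x i
  have hcore := core hn (E := ℂ) (fun i x => (a : ι → ℂ) (pt i) * x)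
    (fun i x => (starRingEnd ℂ) ((a : ι → ℂ) (pt i)) * x)
    (fun i x => (b : ι → ℂ) (pt i) * x)
    (fun i x => (starRingEnd ℂ) ((b : ι → ℂ) (pt i)) * x)
    (fun i x y => by simp only [RCLike.inner_apply, map_mul, Complex.conj_conj]; ring)
    (fun i x y => by simp only [RCLike.inner_apply, map_mul]; ring)
    (fun i j x => by ring) (fun i j x => by ring) ‖a‖ ‖b‖ (norm_nonneg _) (norm_nonneg _)
    (fun i x => by
      rw [norm_mul]; exact mul_le_mul_of_nonneg_right (hap a _) (norm_nonneg _))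
    (fun i x => by
      rw [norm_mul, Complex.norm_conj]
      exact mul_le_mul_of_nonneg_right (hap a _) (norm_nonneg _))
    (fun i x => by
      rw [norm_mul]; exact mul_le_mul_of_nonneg_right (hap b _) (norm_nonneg _))
    (fun i x => by
      rw [norm_mul, Complex.norm_conj]
      exact mul_le_mul_of_nonneg_right (hap b _) (norm_nonneg _)) 1
  refine le_trans (le_of_eq ?_) (hcore.trans (le_of_eq ?_))
  · refine Finset.sum_congr rfl (fun r _ => ?_)
    congr 2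
    unfold cf
    refine Finset.sum_congr rfl (fun j _ => ?_)
    simp
  · simp

end

/-! ### all blocks -/

section
variable (P : ℕ → ℕ) [hP : ∀ k, Fact (P k).Prime] {H : Type} [NormedAddCommGroup H]
  [InnerProductSpace ℂ H] [CompleteSpace H] (bs : ℕ → H)

/-- index set -/
abbrev IX : Type := Σ k, ZMod (P k)

/-- points of the block `k` -/
def pk (k : ℕ) (i : ZMod (P k)) : IX P := ⟨k, i⟩

omit hP in
lemma pk_inj (k : ℕ) : Function.Injective (pk P k) := by
  intro i j h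
  unfold pk at h
  simpa using h

/-- vectors of the block `k` -/
def ek (k : ℕ) (r : ZMod (P k)) : H := bs r.val

variable {bs}

lemma ek_norm (hbs : Orthonormal ℂ bs) (k : ℕ) (z : ZMod (P k) → ℂ) :
    ‖∑ r, z r • ek P bs k r‖ ^ 2 = ∑ r, ‖z r‖ ^ 2 := by
  have ho : Orthonormal ℂ (ek P bs k) := hbs.comp _ (ZMod.val_injective (P k))
  have h1 := ho.inner_sum z z Finset.univ
  have h2 : (‖∑ r, z r • ek P bs k r‖ ^ 2 : ℝ) =
      (inner ℂ (∑ r, z r • ek P bs k r) (∑ r, z r • ek P bs k r)).re :=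
    (inner_self_eq_norm_sq (𝕜 := ℂ) _).symm
  rw [h2, h1, Complex.re_sum]
  refine Finset.sum_congr rfl (fun r _ => ?_)
  rw [Complex.conj_mul']
  norm_cast

variable (bs)

/-- weights -/
def ep (k : ℕ) : ℝ := (1 / 2) ^ k / JJ (P k)

omit hP in
lemma ep_nonneg (k : ℕ) : 0 ≤ ep P k := div_nonneg (by positivity) (JJ_nonneg _)

lemma JJ_pos (k : ℕ) : 0 < JJ (P k) := by
  have : (0 : ℝ) < P k := by exact_mod_cast (hP k).out.pos
  unfold JJ
  positivity

lemma ep_mul (k : ℕ) : ep P k * JJ (P k) = (1 / 2) ^ k := by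
  unfold ep
  exact div_mul_cancel₀ _ (JJ_pos P k).ne'

/-- the term of block `k` -/
def tm (k : ℕ) (a b : LI (IX P)) : H := ((ep P k : ℝ) : ℂ) • blk (pk P k) (ek P bs k) a b

variable {bs}

lemma tm_norm (hbs : Orthonormal ℂ bs) (h2 : ∀ k, P k ≠ 2) (k : ℕ) (a b : LI (IX P)) :
    ‖tm P bs k a b‖ ≤ (1 / 2) ^ k * (‖a‖ * ‖b‖) := by
  unfold tm
  rw [norm_smul, Complex.norm_real, Real.norm_eq_abs, abs_of_nonneg (ep_nonneg P k),
    ← ep_mul P k, mul_assoc]
  exact mul_le_mul_of_nonneg_left (blk_norm (h2 k) _ _ (ek_norm P hbs k) a b) (ep_nonneg P k)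

lemma tm_summable (hbs : Orthonormal ℂ bs) (h2 : ∀ k, P k ≠ 2) (a b : LI (IX P)) :
    Summable (fun k => tm P bs k a b) :=
  Summable.of_norm_bounded
    (summable_geometric_two.mul_right (‖a‖ * ‖b‖)) (fun k => tm_norm P hbs h2 k a b)

/-- the vector valued bilinear map -/
def FF (hbs : Orthonormal ℂ bs) (h2 : ∀ k, P k ≠ 2) : LI (IX P) →ₗ[ℂ] LI (IX P) →ₗ[ℂ] H :=
  LinearMap.mk₂ ℂ (fun a b => ∑' k, tm P bs k a b)
    (fun a a' b => by
      rw [← (tm_summable P hbs h2 a b).tsum_add (tm_summable P hbs h2 a' b)]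
      refine tsum_congr (fun k => ?_)
      simp only [tm, blk_add_left, smul_add])
    (fun c a b => by
      rw [← (tm_summable P hbs h2 a b).tsum_const_smul c]
      refine tsum_congr (fun k => ?_)
      simp only [tm, blk_smul_left]
      rw [smul_comm])
    (fun a b b' => by
      rw [← (tm_summable P hbs h2 a b).tsum_add (tm_summable P hbs h2 a b')]
      refine tsum_congr (fun k => ?_)
      simp only [tm, blk_add_right, smul_add])
    (fun c a b => by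
      rw [← (tm_summable P hbs h2 a b).tsum_const_smul c]
      refine tsum_congr (fun k => ?_)
      simp only [tm, blk_smul_right]
      rw [smul_comm])

lemma FF_apply (hbs : Orthonormal ℂ bs) (h2 : ∀ k, P k ≠ 2) (a b : LI (IX P)) :
    FF P hbs h2 a b = ∑' k, tm P bs k a b := rfl

/-- the operator valued bilinear map -/
def PP (hbs : Orthonormal ℂ bs) (h2 : ∀ k, P k ≠ 2) :
    LI (IX P) →ₗ[ℂ] LI (IX P) →ₗ[ℂ] (H →L[ℂ] H) :=
  (FF P hbs h2).compr₂ (ContinuousLinearMap.smulRightL ℂ H H (innerSL ℂ (bs 0))).toLinearMap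

lemma PP_apply (hbs : Orthonormal ℂ bs) (h2 : ∀ k, P k ≠ 2) (a b : LI (IX P)) (x : H) :
    PP P hbs h2 a b x = (inner ℂ (bs 0) x : ℂ) • FF P hbs h2 a b := rfl

variable [PartialOrder (LI (IX P))] [StarOrderedRing (LI (IX P))]

lemma FF_jcb (hbs : Orthonormal ℂ bs) (h2 : ∀ k, P k ≠ 2) {N M : ℕ}
    (a : CStarMatrix (Fin N) (Fin N) (LI (IX P))) (b : CStarMatrix (Fin M) (Fin M) (LI (IX P)))
    (c : Fin N × Fin M → ℂ) :
    ∑ p : Fin N × Fin M, ‖∑ q : Fin N × Fin M, c q • FF P hbs h2 (a p.1 q.1) (b p.2 q.2)‖ ^ 2 ≤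
      (2 * ‖a‖ * ‖b‖) ^ 2 * ∑ q, ‖c q‖ ^ 2 := by
  set R : ℝ := Real.sqrt (∑ q, ‖c q‖ ^ 2) with hR
  have hRsq : R ^ 2 = ∑ q, ‖c q‖ ^ 2 := Real.sq_sqrt (Finset.sum_nonneg (fun _ _ => sq_nonneg _))
  have hR0 : 0 ≤ R := Real.sqrt_nonneg _
  let G : ℕ → PiLp 2 (fun _ : Fin N × Fin M => H) := fun k =>
    WithLp.toLp 2 (fun p => ∑ q : Fin N × Fin M, c q • tm P bs k (a p.1 q.1) (b p.2 q.2))
  have hG : ∀ k, ‖G k‖ ≤ (1 / 2) ^ k * (‖a‖ * ‖b‖ * R) := by
    intro k
    refine le_of_sq_le_sq ?_ (by positivity)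
    have hb := blk_jcb (h2 k) (pk P k) (ek P bs k) (ek_norm P hbs k) a b c
    rw [PiLp.norm_sq_eq_of_L2]
    have h3 : ∀ p : Fin N × Fin M, ‖G k p‖ ^ 2 = (ep P k) ^ 2 *
        ‖∑ q : Fin N × Fin M, c q • blk (pk P k) (ek P bs k) (a p.1 q.1) (b p.2 q.2)‖ ^ 2 := by
      intro p
      have h4 : G k p = ((ep P k : ℝ) : ℂ) • ∑ q : Fin N × Fin M,
          c q • blk (pk P k) (ek P bs k) (a p.1 q.1) (b p.2 q.2) := by
        simp only [G, tm, Finset.smul_sum]
        refine Finset.sum_congr rfl (fun q _ => ?_)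
        rw [smul_comm]
      rw [h4, norm_smul, Complex.norm_real, Real.norm_eq_abs, abs_of_nonneg (ep_nonneg P k),
        mul_pow]
    rw [Finset.sum_congr rfl (fun p _ => h3 p), ← Finset.mul_sum]
    calc (ep P k) ^ 2 * ∑ p : Fin N × Fin M,
        ‖∑ q : Fin N × Fin M, c q • blk (pk P k) (ek P bs k) (a p.1 q.1) (b p.2 q.2)‖ ^ 2
        ≤ (ep P k) ^ 2 * (2 * (P k : ℝ) ^ 2 * Real.sqrt (P k) * (‖a‖ * ‖b‖) ^ 2
          * ∑ q, ‖c q‖ ^ 2) := mul_le_mul_of_nonneg_left hb (sq_nonneg _)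
      _ = (ep P k * JJ (P k)) ^ 2 * (‖a‖ * ‖b‖ * R) ^ 2 := by
          rw [mul_pow (ep P k), JJ_sq, mul_pow (‖a‖ * ‖b‖) R, hRsq]
          ring
      _ = ((1 / 2) ^ k * (‖a‖ * ‖b‖ * R)) ^ 2 := by
          rw [ep_mul, ← mul_pow]
  have hpart : ∀ K : ℕ, ∑ p : Fin N × Fin M, ‖∑ q : Fin N × Fin M,
      c q • ∑ k ∈ Finset.range K, tm P bs k (a p.1 q.1) (b p.2 q.2)‖ ^ 2 ≤
      (2 * ‖a‖ * ‖b‖) ^ 2 * ∑ q, ‖c q‖ ^ 2 := by
    intro K
    have h5 : ∑ p : Fin N × Fin M, ‖∑ q : Fin N × Fin M,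
        c q • ∑ k ∈ Finset.range K, tm P bs k (a p.1 q.1) (b p.2 q.2)‖ ^ 2 =
        ‖∑ k ∈ Finset.range K, G k‖ ^ 2 := by
      rw [PiLp.norm_sq_eq_of_L2]
      refine Finset.sum_congr rfl (fun p _ => ?_)
      congr 2
      have h6 : (∑ k ∈ Finset.range K, G k) p = ∑ k ∈ Finset.range K, G k p := by
        simp
      rw [h6]
      simp only [G, Finset.smul_sum]
      rw [Finset.sum_comm]
    rw [h5, ← hRsq]
    have h7 : ‖∑ k ∈ Finset.range K, G k‖ ≤ 2 * ‖a‖ * ‖b‖ * R := by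
      calc ‖∑ k ∈ Finset.range K, G k‖ ≤ ∑ k ∈ Finset.range K, (1 / 2) ^ k * (‖a‖ * ‖b‖ * R) :=
            norm_sum_le_of_le _ (fun k _ => hG k)
        _ = (∑ k ∈ Finset.range K, (1 / 2 : ℝ) ^ k) * (‖a‖ * ‖b‖ * R) := by
            rw [Finset.sum_mul]
        _ ≤ 2 * (‖a‖ * ‖b‖ * R) := by
            apply mul_le_mul_of_nonneg_right _ (by positivity)
            have h8 := summable_geometric_two.sum_le_tsum (Finset.range K)
              (fun k _ => by positivity)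
            rw [tsum_geometric_two] at h8
            exact h8
        _ = 2 * ‖a‖ * ‖b‖ * R := by ring
    calc ‖∑ k ∈ Finset.range K, G k‖ ^ 2 ≤ (2 * ‖a‖ * ‖b‖ * R) ^ 2 :=
          pow_le_pow_left₀ (norm_nonneg _) h7 2
      _ = (2 * ‖a‖ * ‖b‖) ^ 2 * R ^ 2 := by ring
  have hlim : Tendsto (fun K : ℕ => ∑ p : Fin N × Fin M, ‖∑ q : Fin N × Fin M,
      c q • ∑ k ∈ Finset.range K, tm P bs k (a p.1 q.1) (b p.2 q.2)‖ ^ 2) atTop
      (𝓝 (∑ p : Fin N × Fin M, ‖∑ q : Fin N × Fin M,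
        c q • FF P hbs h2 (a p.1 q.1) (b p.2 q.2)‖ ^ 2)) := by
    refine tendsto_finsetSum _ (fun p _ => ?_)
    refine ((tendsto_finsetSum _ (fun q _ => ?_)).norm).pow 2
    refine Tendsto.const_smul ?_ _
    exact (tm_summable P hbs h2 _ _).hasSum.tendsto_sum_nat
  exact le_of_tendsto' hlim hpart

/-- joint complete boundedness -/
theorem PP_jcb (hbs : Orthonormal ℂ bs) (h2 : ∀ k, P k ≠ 2) (N M : ℕ)
    (a : CStarMatrix (Fin N) (Fin N) (LI (IX P))) (b : CStarMatrix (Fin M) (Fin M) (LI (IX P)))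
    (x : Fin N × Fin M → H) :
    ∑ p : Fin N × Fin M, ‖∑ q : Fin N × Fin M, PP P hbs h2 (a p.1 q.1) (b p.2 q.2) (x q)‖ ^ 2 ≤
      (2 * ‖a‖ * ‖b‖) ^ 2 * ∑ q, ‖x q‖ ^ 2 := by
  have h := FF_jcb P hbs h2 a b (fun q => (inner ℂ (bs 0) (x q) : ℂ))
  simp only [PP_apply]
  refine h.trans (mul_le_mul_of_nonneg_left ?_ (sq_nonneg _))
  refine Finset.sum_le_sum (fun q _ => ?_)
  refine pow_le_pow_left₀ (norm_nonneg _) ?_ 2
  refine (norm_inner_le_norm _ _).trans ?_
  rw [hbs.1 0, one_mul]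

omit [PartialOrder (LI (IX P))] [StarOrderedRing (LI (IX P))] in
lemma FF_dl (hbs : Orthonormal ℂ bs) (h2 : ∀ k, P k ≠ 2) (k : ℕ) (r s : ZMod (P k)) :
    FF P hbs h2 (dl (pk P k (r + s))) (dl (pk P k s)) =
      (((ep P k : ℝ) : ℂ) * chi (P k) (r ^ 2 * s)) • ek P bs k r := by
  rw [FF_apply, tsum_eq_single k]
  · unfold tm blk
    rw [Finset.sum_eq_single r]
    · have : cf (pk P k) r (dl (pk P k (r + s))) (dl (pk P k s)) = chi (P k) (r ^ 2 * s) := by
        unfold cf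
        rw [Finset.sum_eq_single s]
        · rw [add_comm s r, dl_same, dl_same]
          simp
        · intro j _ hj
          have hne : pk P k j ≠ pk P k s := fun h => hj (pk_inj P k h)
          rw [dl_ne hne]
          simp
        · simp
      rw [this, smul_smul]
    · intro r' _ hr'
      have : cf (pk P k) r' (dl (pk P k (r + s))) (dl (pk P k s)) = 0 := by
        unfold cf
        refine Finset.sum_eq_zero (fun j _ => ?_)
        by_cases hj : j = s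
        · subst hj
          have hne : pk P k (j + r') ≠ pk P k (r + j) := by
            intro h
            have := pk_inj P k h
            rw [add_comm r j] at this
            exact hr' (add_left_cancel this)
          rw [dl_ne hne]
          simp
        · have hne : pk P k j ≠ pk P k s := fun h => hj (pk_inj P k h)
          rw [dl_ne hne]
          simp
      rw [this, zero_smul]
    · simp
  · intro k' hk'
    unfold tm blk
    have : ∀ r' : ZMod (P k'), cf (pk P k') r' (dl (pk P k (r + s))) (dl (pk P k s)) = 0 := by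
      intro r'
      unfold cf
      refine Finset.sum_eq_zero (fun j _ => ?_)
      have hne : pk P k' j ≠ pk P k s := by
        intro h
        unfold pk at h
        exact hk' (congrArg Sigma.fst h)
      rw [dl_ne hne]
      simp
    simp [this]

/-- the lower bound for a decomposition -/
theorem dec_lower (hbs : Orthonormal ℂ bs) (h2 : ∀ k, P k ≠ 2)
    (φ₁ φ₂ : LI (IX P) →ₗ[ℂ] LI (IX P) →ₗ[ℂ] (H →L[ℂ] H)) (C₁ C₂ : ℝ)
    (h₁ : ∀ (n : ℕ) (a : CStarMatrix (Fin n) (Fin n) (LI (IX P)))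
            (b : CStarMatrix (Fin n) (Fin n) (LI (IX P))) (x : Fin n → H),
            ∑ i : Fin n, ‖∑ j : Fin n, ∑ k : Fin n, φ₁ (a i k) (b k j) (x j)‖ ^ 2
              ≤ (C₁ * ‖a‖ * ‖b‖) ^ 2 * ∑ j : Fin n, ‖x j‖ ^ 2)
    (h₂ : ∀ (n : ℕ) (a : CStarMatrix (Fin n) (Fin n) (LI (IX P)))
            (b : CStarMatrix (Fin n) (Fin n) (LI (IX P))) (x : Fin n → H),
            ∑ i : Fin n, ‖∑ j : Fin n, ∑ k : Fin n, φ₂ (a i k) (b k j) (x j)‖ ^ 2
              ≤ (C₂ * ‖a‖ * ‖b‖) ^ 2 * ∑ j : Fin n, ‖x j‖ ^ 2)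
    (hdec : ∀ a b, PP P hbs h2 a b = φ₁ a b + φ₂ b a) (k : ℕ) :
    (P k : ℝ) ^ 3 * ep P k ^ 2 ≤ 2 * (C₁ ^ 2 + C₂ ^ 2) := by
  have hnb : ‖bs 0‖ = 1 := hbs.1 0
  have hV := low (pk P k) (pk_inj P k) (bs 0) hnb φ₁ C₁ h₁ (fun r s => chi (P k) (-(r ^ 2 * s)))
    (fun r s => chi_norm _) (fun r s => r + s) (fun r => add_right_injective r)
    (fun s => add_left_injective s)
  have hW := low (pk P k) (pk_inj P k) (bs 0) hnb φ₂ C₂ h₂
    (fun r s => chi (P k) (-(r ^ 2 * (s - r)))) (fun r s => chi_norm _) (fun r s => s - r)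
    (fun r => sub_left_injective) (fun s => sub_right_injective)
  have hW' : ∀ r : ZMod (P k), ∑ s, chi (P k) (-(r ^ 2 * (s - r))) •
      φ₂ (dl (pk P k (s - r))) (dl (pk P k s)) (bs 0) =
      ∑ s, chi (P k) (-(r ^ 2 * s)) • φ₂ (dl (pk P k s)) (dl (pk P k (r + s))) (bs 0) := by
    intro r
    rw [← Equiv.sum_comp (Equiv.addLeft r)]
    refine Finset.sum_congr rfl (fun s _ => ?_)
    simp only [Equiv.coe_addLeft, add_sub_cancel_left]
  simp only [hW'] at hW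
  have hsum : ∀ r : ZMod (P k),
      ∑ s, chi (P k) (-(r ^ 2 * s)) • φ₁ (dl (pk P k (r + s))) (dl (pk P k s)) (bs 0) +
      ∑ s, chi (P k) (-(r ^ 2 * s)) • φ₂ (dl (pk P k s)) (dl (pk P k (r + s))) (bs 0) =
      ((P k : ℂ) * ((ep P k : ℝ) : ℂ)) • ek P bs k r := by
    intro r
    rw [← Finset.sum_add_distrib]
    have h3 : ∀ s : ZMod (P k), chi (P k) (-(r ^ 2 * s)) •
        φ₁ (dl (pk P k (r + s))) (dl (pk P k s)) (bs 0) +
        chi (P k) (-(r ^ 2 * s)) • φ₂ (dl (pk P k s)) (dl (pk P k (r + s))) (bs 0) =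
        ((ep P k : ℝ) : ℂ) • ek P bs k r := by
      intro s
      rw [← smul_add, ← _root_.add_apply, ← hdec, PP_apply, FF_dl,
        inner_self_eq_norm_sq_to_K, hnb]
      simp only [smul_smul]
      congr 1
      have : chi (P k) (-(r ^ 2 * s)) * chi (P k) (r ^ 2 * s) = 1 := by
        rw [← AddChar.map_add_eq_mul]
        simp
      calc _ = (chi (P k) (-(r ^ 2 * s)) * chi (P k) (r ^ 2 * s)) * ((ep P k : ℝ) : ℂ) := by
            simp
            ring
        _ = _ := by rw [this, one_mul]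
    rw [Finset.sum_congr rfl (fun s _ => h3 s)]
    simp only [Finset.sum_const, Finset.card_univ, ZMod.card, mul_smul]
    rw [← Nat.cast_smul_eq_nsmul ℂ]
  have hek : ∀ r : ZMod (P k), ‖ek P bs k r‖ = 1 := fun r => hbs.1 _
  have hr : ∀ r : ZMod (P k), (P k : ℝ) ^ 2 * ep P k ^ 2 ≤
      2 * (‖∑ s, chi (P k) (-(r ^ 2 * s)) •
        φ₁ (dl (pk P k (r + s))) (dl (pk P k s)) (bs 0)‖ ^ 2 +
      ‖∑ s, chi (P k) (-(r ^ 2 * s)) •
        φ₂ (dl (pk P k s)) (dl (pk P k (r + s))) (bs 0)‖ ^ 2) := by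
    intro r
    have h4 := norm_add_le
      (∑ s, chi (P k) (-(r ^ 2 * s)) • φ₁ (dl (pk P k (r + s))) (dl (pk P k s)) (bs 0))
      (∑ s, chi (P k) (-(r ^ 2 * s)) • φ₂ (dl (pk P k s)) (dl (pk P k (r + s))) (bs 0))
    rw [hsum r, norm_smul, hek, mul_one, norm_mul, Complex.norm_real, Real.norm_eq_abs,
      abs_of_nonneg (ep_nonneg P k), Complex.norm_natCast] at h4
    have h5 : 0 ≤ (P k : ℝ) * ep P k := mul_nonneg (Nat.cast_nonneg _) (ep_nonneg P k)
    have h6 := pow_le_pow_left₀ h5 h4 2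
    rw [mul_pow] at h6
    refine h6.trans ?_
    nlinarith [sq_nonneg (‖∑ s, chi (P k) (-(r ^ 2 * s)) •
        φ₁ (dl (pk P k (r + s))) (dl (pk P k s)) (bs 0)‖ - ‖∑ s, chi (P k) (-(r ^ 2 * s)) •
        φ₂ (dl (pk P k s)) (dl (pk P k (r + s))) (bs 0)‖)]
  have htot := Finset.sum_le_sum (fun (r : ZMod (P k)) (_ : r ∈ Finset.univ) => hr r)
  rw [Finset.sum_const, Finset.card_univ, ZMod.card, nsmul_eq_mul, ← Finset.mul_sum,
    Finset.sum_add_distrib] at htot
  calc (P k : ℝ) ^ 3 * ep P k ^ 2 = (P k : ℝ) * ((P k : ℝ) ^ 2 * ep P k ^ 2) := by ring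
    _ ≤ _ := htot
    _ ≤ 2 * (C₁ ^ 2 + C₂ ^ 2) := by
        apply mul_le_mul_of_nonneg_left _ (by norm_num)
        exact add_le_add hV hW

omit [PartialOrder (LI (IX P))] [StarOrderedRing (LI (IX P))] hP in
lemma growth (k : ℕ) (hk : 4 * 256 ^ k ≤ P k) : (4 : ℝ) ^ k ≤ (P k : ℝ) ^ 3 * ep P k ^ 2 := by
  have h1 : (4 * 256 ^ k : ℝ) ≤ P k := by exact_mod_cast hk
  have h0 : (0 : ℝ) < 256 ^ k := by positivity
  have hp : (0 : ℝ) < P k := by linarith
  have h16 : (2 * 16 ^ k : ℝ) ^ 2 = 4 * 256 ^ k := by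
    have h : (256 : ℝ) ^ k = (16 ^ k) ^ 2 := by
      rw [← pow_mul, mul_comm k 2, pow_mul]
      norm_num
    rw [h]
    ring
  have hs : 2 * 16 ^ k ≤ Real.sqrt (P k) := by
    apply Real.le_sqrt_of_sq_le
    rw [h16]
    exact h1
  have hsq : Real.sqrt (P k) * Real.sqrt (P k) = P k := Real.mul_self_sqrt hp.le
  have hspos : 0 < Real.sqrt (P k) := Real.sqrt_pos.2 hp
  have e1 : (P k : ℝ) ^ 3 * ep P k ^ 2 = (1 / 4) ^ k * (Real.sqrt (P k) / 2) := by
    unfold ep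
    rw [div_pow, JJ_sq, ← pow_mul]
    have e2 : ((1 / 2 : ℝ)) ^ (k * 2) = (1 / 4) ^ k := by
      rw [mul_comm, pow_mul]
      norm_num
    rw [e2]
    field_simp
    rw [show Real.sqrt (P k) ^ 2 = P k by rw [sq, hsq]]
  rw [e1]
  calc (4 : ℝ) ^ k = (1 / 4) ^ k * 16 ^ k := by rw [← mul_pow]; norm_num
    _ ≤ (1 / 4) ^ k * (Real.sqrt (P k) / 2) := by
        apply mul_le_mul_of_nonneg_left _ (by positivity)
        linarith

end

end Pool.Agent.W665.JCB
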