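import Mathlib

/-!
# Matrices over `ℓ^∞(ι)`: the value at a point is bounded by the norm
-/

set_option autoImplicit false
open scoped CStarMatrix

noncomputable section

namespace Pool.Agent.W665.JCB

open WithCStarModule

/-- bounded functions on `ι` -/
abbrev LI (ι : Type) : Type := lp (fun _ : ι => ℂ) ⊤

/-- indicator of a point -/
def dl {ι : Type} (x : ι) : LI ι := by
  classical
  exact lp.single ⊤ x (1 : ℂ)

lemma dl_same {ι : Type} (x : ι) : (dl x : ι → ℂ) x = 1 := by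
  classical
  simp [dl, lp.single_apply_self]

lemma dl_ne {ι : Type} {x y : ι} (h : y ≠ x) : (dl x : ι → ℂ) y = 0 := by
  classical
  unfold dl
  exact lp.single_apply_ne _ _ _ h

lemma norm_dl_le {ι : Type} (x : ι) : ‖dl x‖ ≤ 1 := by
  refine lp.norm_le_of_forall_le zero_le_one ?_
  intro y
  by_cases h : y = x
  · subst h
    rw [dl_same]
    simp
  · rw [dl_ne h]
    simp

section generic
variable {A : Type} [NonUnitalCStarAlgebra A] [PartialOrder A] [StarOrderedRing A] {N : ℕ}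

lemma norm_starA (M : CStarMatrix (Fin N) (Fin N) A) : ‖star M‖ = ‖M‖ := norm_star M

/-- a matrix whose square `M* M` is a projection has norm at most one -/
lemma norm_le_oneA (M : CStarMatrix (Fin N) (Fin N) A)
    (h : star M * M * (star M * M) = star M * M) : ‖M‖ ≤ 1 := by
  have h1 : ‖star M * M‖ = ‖M‖ * ‖M‖ := CStarRing.norm_star_mul_self
  have h2 : ‖star (star M * M) * (star M * M)‖ = ‖star M * M‖ * ‖star M * M‖ :=
    CStarRing.norm_star_mul_self
  have h3 : star (star M * M) = star M * M := by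
    rw [star_mul, star_star]
  rw [h3, h] at h2
  rw [h1] at h2
  have h4 : 0 ≤ ‖M‖ := norm_nonneg M
  by_contra hlt
  push Not at hlt
  have h5 : 1 < ‖M‖ * ‖M‖ := by nlinarith
  nlinarith

end generic

section
variable {ι : Type} [PartialOrder (LI ι)] [StarOrderedRing (LI ι)] {N : ℕ}

lemma sum_apply {κ : Type} (s : Finset κ) (f : κ → LI ι) (x : ι) :
    ((∑ i ∈ s, f i : LI ι) : ι → ℂ) x = ∑ i ∈ s, (f i : ι → ℂ) x := by
  rw [lp.coeFn_sum]
  simp

lemma vecM (M : CStarMatrix (Fin N) (Fin N) (LI ι)) (x : ι) (c : Fin N → ℂ) :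
    ∑ j, ‖∑ i, c i * (M i j : ι → ℂ) x‖ ^ 2 ≤ ‖M‖ ^ 2 * ∑ i, ‖c i‖ ^ 2 := by
  let v : C⋆ᵐᵒᵈ(LI ι, Fin N → LI ι) := (equiv _ _).symm (fun i => c i • dl x)
  have hv : ‖v‖ ^ 2 ≤ ∑ i, ‖c i‖ ^ 2 := by
    rw [pi_norm_sq]
    refine (norm_sum_le _ _).trans (Finset.sum_le_sum (fun i _ => ?_))
    rw [inner_def]
    calc ‖v i * star (v i)‖ ≤ ‖v i‖ * ‖star (v i)‖ := norm_mul_le _ _
      _ = ‖v i‖ * ‖v i‖ := by rw [norm_star]
      _ ≤ ‖c i‖ * ‖c i‖ := by
          have : ‖v i‖ ≤ ‖c i‖ := by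
            have h1 : v i = c i • dl x := rfl
            rw [h1, norm_smul]
            exact mul_le_of_le_one_right (norm_nonneg _) (norm_dl_le x)
          exact mul_le_mul this this (norm_nonneg _) (norm_nonneg _)
      _ = ‖c i‖ ^ 2 := by ring
  have hMv : ∑ j, ‖∑ i, c i * (M i j : ι → ℂ) x‖ ^ 2 ≤ ‖CStarMatrix.toCLM M v‖ ^ 2 := by
    rw [pi_norm_sq]
    have h1 := lp.norm_apply_le_norm (p := ⊤) (by simp)
      (∑ j, inner (LI ι) ((CStarMatrix.toCLM M v) j) ((CStarMatrix.toCLM M v) j)) x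
    refine le_trans (le_of_eq ?_) h1
    rw [sum_apply]
    have h2 : ∀ j, (inner (LI ι) ((CStarMatrix.toCLM M v) j) ((CStarMatrix.toCLM M v) j)
        : ι → ℂ) x = ((‖∑ i, c i * (M i j : ι → ℂ) x‖ ^ 2 : ℝ) : ℂ) := by
      intro j
      rw [inner_def]
      have h3 : ((CStarMatrix.toCLM M v) j : ι → ℂ) x = ∑ i, c i * (M i j : ι → ℂ) x := by
        rw [CStarMatrix.toCLM_apply_eq_sum]
        have h4 : ((equiv (LI ι) (Fin N → LI ι)).symm (fun j => ∑ i, v i * M i j)) j =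
          ∑ i, v i * M i j := rfl
        rw [h4, sum_apply]
        refine Finset.sum_congr rfl (fun i _ => ?_)
        have h5 : v i = c i • dl x := rfl
        rw [h5, lp.infty_coeFn_mul]
        simp [dl_same]
      rw [lp.infty_coeFn_mul, lp.coeFn_star]
      simp only [Pi.mul_apply, Pi.star_apply]
      rw [h3]
      rw [Complex.ofReal_pow, ← Complex.mul_conj']
      rfl
    rw [Finset.sum_congr rfl (fun j _ => h2 j), ← Complex.ofReal_sum, Complex.norm_real,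
      Real.norm_eq_abs, abs_of_nonneg (Finset.sum_nonneg (fun _ _ => sq_nonneg _))]
  have hop : ‖CStarMatrix.toCLM M v‖ ≤ ‖M‖ * ‖v‖ := by
    rw [CStarMatrix.norm_def]
    exact ContinuousLinearMap.le_opNorm _ _
  calc ∑ j, ‖∑ i, c i * (M i j : ι → ℂ) x‖ ^ 2 ≤ ‖CStarMatrix.toCLM M v‖ ^ 2 := hMv
    _ ≤ (‖M‖ * ‖v‖) ^ 2 := pow_le_pow_left₀ (norm_nonneg _) hop 2
    _ = ‖M‖ ^ 2 * ‖v‖ ^ 2 := by ring
    _ ≤ ‖M‖ ^ 2 * ∑ i, ‖c i‖ ^ 2 := mul_le_mul_of_nonneg_left hv (sq_nonneg _)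

lemma norm_star' (M : CStarMatrix (Fin N) (Fin N) (LI ι)) : ‖star M‖ = ‖M‖ := norm_starA M

/-- the matrix of values at `x` has norm at most `‖M‖` -/
lemma mulV (M : CStarMatrix (Fin N) (Fin N) (LI ι)) (x : ι) (c : Fin N → ℂ) :
    ∑ p, ‖∑ q, (M p q : ι → ℂ) x * c q‖ ^ 2 ≤ ‖M‖ ^ 2 * ∑ q, ‖c q‖ ^ 2 := by
  have h := vecM (star M) x (fun q => (starRingEnd ℂ) (c q))
  rw [norm_star'] at h
  refine le_trans (le_of_eq ?_) (h.trans (le_of_eq ?_))
  · refine Finset.sum_congr rfl (fun p _ => ?_)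
    rw [← Complex.norm_conj]
    congr 2
    rw [map_sum]
    refine Finset.sum_congr rfl (fun q _ => ?_)
    rw [CStarMatrix.star_apply, lp.coeFn_star]
    simp [mul_comm]
  · simp

/-- the adjoint of the matrix of values at `x` has norm at most `‖M‖` -/
lemma mulVstar (M : CStarMatrix (Fin N) (Fin N) (LI ι)) (x : ι) (c : Fin N → ℂ) :
    ∑ p, ‖∑ q, (starRingEnd ℂ) ((M q p : ι → ℂ) x) * c q‖ ^ 2 ≤ ‖M‖ ^ 2 * ∑ q, ‖c q‖ ^ 2 := by
  have h := mulV (star M) x c
  rw [norm_star'] at h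
  refine le_trans (le_of_eq ?_) h
  refine Finset.sum_congr rfl (fun p _ => ?_)
  congr 2

/-- a matrix whose square `M* M` is a projection has norm at most one -/
lemma norm_le_one (M : CStarMatrix (Fin N) (Fin N) (LI ι))
    (h : star M * M * (star M * M) = star M * M) : ‖M‖ ≤ 1 := norm_le_oneA M h

end

end Pool.Agent.W665.JCB
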