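import Pool.Agent.W665.JCB.Core
import Pool.Agent.W665.JCB.MatB

/-!
# The block maps and their joint complete boundedness
-/

set_option autoImplicit false
open scoped CStarMatrix

noncomputable section

namespace Pool.Agent.W665.JCB

open Finset

/-- coefficient functional -/
def cf {ι : Type} {n : ℕ} [NeZero n] (pt : ZMod n → ι) (r : ZMod n) (a b : LI ι) : ℂ :=
  ∑ j : ZMod n, chi n (r ^ 2 * j) * ((a : ι → ℂ) (pt (j + r)) * (b : ι → ℂ) (pt j))

/-- the block map `ℓ^∞ × ℓ^∞ → H` -/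
def blk {ι H : Type} [NormedAddCommGroup H] [InnerProductSpace ℂ H] {n : ℕ} [NeZero n]
    (pt : ZMod n → ι) (e : ZMod n → H) (a b : LI ι) : H :=
  ∑ r : ZMod n, cf pt r a b • e r

/-- the operator of multiplication by the first matrix -/
def opS {N M : ℕ} (A : Fin N → Fin N → ℂ) (c : EuclideanSpace ℂ (Fin N × Fin M)) :
    EuclideanSpace ℂ (Fin N × Fin M) :=
  WithLp.toLp 2 (fun p => ∑ q, A p.1 q * c (q, p.2))

/-- the operator of multiplication by the second matrix -/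
def opT {N M : ℕ} (B : Fin M → Fin M → ℂ) (c : EuclideanSpace ℂ (Fin N × Fin M)) :
    EuclideanSpace ℂ (Fin N × Fin M) :=
  WithLp.toLp 2 (fun p => ∑ q, B p.2 q * c (p.1, q))

/-- adjoint matrix -/
def adj {N : ℕ} (A : Fin N → Fin N → ℂ) : Fin N → Fin N → ℂ := fun p q => (starRingEnd ℂ) (A q p)

lemma adj_adj {N : ℕ} (A : Fin N → Fin N → ℂ) : adj (adj A) = A := by
  funext p q
  simp [adj]

lemma opS_adj {N M : ℕ} (A : Fin N → Fin N → ℂ) (x y : EuclideanSpace ℂ (Fin N × Fin M)) :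
    inner ℂ (opS (adj A) x) y = inner ℂ x (opS A y) := by
  rw [PiLp.inner_apply, PiLp.inner_apply, Fintype.sum_prod_type_right,
    Fintype.sum_prod_type_right]
  refine Finset.sum_congr rfl (fun k _ => ?_)
  simp only [opS, adj, RCLike.inner_apply, map_sum, map_mul, Complex.conj_conj, Finset.mul_sum,
    Finset.sum_mul]
  rw [Finset.sum_comm]
  refine Finset.sum_congr rfl (fun p _ => Finset.sum_congr rfl (fun q _ => ?_))
  ring

lemma opT_adj {N M : ℕ} (B : Fin M → Fin M → ℂ) (x y : EuclideanSpace ℂ (Fin N × Fin M)) :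
    inner ℂ (opT (adj B) x) y = inner ℂ x (opT B y) := by
  rw [PiLp.inner_apply, PiLp.inner_apply, Fintype.sum_prod_type, Fintype.sum_prod_type]
  refine Finset.sum_congr rfl (fun k _ => ?_)
  simp only [opT, adj, RCLike.inner_apply, map_sum, map_mul, Complex.conj_conj, Finset.mul_sum,
    Finset.sum_mul]
  rw [Finset.sum_comm]
  refine Finset.sum_congr rfl (fun p _ => Finset.sum_congr rfl (fun q _ => ?_))
  ring

lemma opST {N M : ℕ} (A : Fin N → Fin N → ℂ) (B : Fin M → Fin M → ℂ)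
    (x : EuclideanSpace ℂ (Fin N × Fin M)) : opS A (opT B x) = opT B (opS A x) := by
  ext p
  simp only [opS, opT, Finset.mul_sum]
  rw [Finset.sum_comm]
  refine Finset.sum_congr rfl (fun q _ => Finset.sum_congr rfl (fun q' _ => ?_))
  ring

lemma opS_norm {N M : ℕ} (A : Fin N → Fin N → ℂ) (α : ℝ) (hα : 0 ≤ α)
    (hA : ∀ c : Fin N → ℂ, ∑ p, ‖∑ q, A p q * c q‖ ^ 2 ≤ α ^ 2 * ∑ q, ‖c q‖ ^ 2)
    (x : EuclideanSpace ℂ (Fin N × Fin M)) : ‖opS A x‖ ≤ α * ‖x‖ := by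
  refine le_of_sq_le_sq ?_ (by positivity)
  rw [mul_pow, EuclideanSpace.norm_sq_eq, EuclideanSpace.norm_sq_eq,
    Fintype.sum_prod_type_right, Fintype.sum_prod_type_right, Finset.mul_sum]
  exact Finset.sum_le_sum (fun k _ => hA (fun q => x (q, k)))

lemma opT_norm {N M : ℕ} (B : Fin M → Fin M → ℂ) (β : ℝ) (hβ : 0 ≤ β)
    (hB : ∀ c : Fin M → ℂ, ∑ p, ‖∑ q, B p q * c q‖ ^ 2 ≤ β ^ 2 * ∑ q, ‖c q‖ ^ 2)
    (x : EuclideanSpace ℂ (Fin N × Fin M)) : ‖opT B x‖ ≤ β * ‖x‖ := by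
  refine le_of_sq_le_sq ?_ (by positivity)
  rw [mul_pow, EuclideanSpace.norm_sq_eq, EuclideanSpace.norm_sq_eq,
    Fintype.sum_prod_type, Fintype.sum_prod_type, Finset.mul_sum]
  exact Finset.sum_le_sum (fun k _ => hB (fun q => x (k, q)))

/-- joint complete boundedness of the block map -/
theorem blk_jcb {ι H : Type} [PartialOrder (LI ι)] [StarOrderedRing (LI ι)]
    [NormedAddCommGroup H] [InnerProductSpace ℂ H] {n : ℕ} [Fact n.Prime] (hn : n ≠ 2)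
    (pt : ZMod n → ι) (e : ZMod n → H)
    (he : ∀ z : ZMod n → ℂ, ‖∑ r, z r • e r‖ ^ 2 = ∑ r, ‖z r‖ ^ 2) {N M : ℕ}
    (a : CStarMatrix (Fin N) (Fin N) (LI ι)) (b : CStarMatrix (Fin M) (Fin M) (LI ι))
    (c : Fin N × Fin M → ℂ) :
    ∑ p : Fin N × Fin M, ‖∑ q : Fin N × Fin M, c q • blk pt e (a p.1 q.1) (b p.2 q.2)‖ ^ 2 ≤
      2 * (n : ℝ) ^ 2 * Real.sqrt n * (‖a‖ * ‖b‖) ^ 2 * ∑ q, ‖c q‖ ^ 2 := by
  let A : ZMod n → Fin N → Fin N → ℂ := fun i p q => (a p q : ι → ℂ) (pt i)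
  let B : ZMod n → Fin M → Fin M → ℂ := fun i p q => (b p q : ι → ℂ) (pt i)
  let cc : EuclideanSpace ℂ (Fin N × Fin M) := WithLp.toLp 2 c
  have hA : ∀ i, ∀ c : Fin N → ℂ, ∑ p, ‖∑ q, A i p q * c q‖ ^ 2 ≤ ‖a‖ ^ 2 * ∑ q, ‖c q‖ ^ 2 :=
    fun i c => mulV a (pt i) c
  have hA' : ∀ i, ∀ c : Fin N → ℂ, ∑ p, ‖∑ q, adj (A i) p q * c q‖ ^ 2 ≤
      ‖a‖ ^ 2 * ∑ q, ‖c q‖ ^ 2 := fun i c => mulVstar a (pt i) c
  have hB : ∀ i, ∀ c : Fin M → ℂ, ∑ p, ‖∑ q, B i p q * c q‖ ^ 2 ≤ ‖b‖ ^ 2 * ∑ q, ‖c q‖ ^ 2 :=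
    fun i c => mulV b (pt i) c
  have hB' : ∀ i, ∀ c : Fin M → ℂ, ∑ p, ‖∑ q, adj (B i) p q * c q‖ ^ 2 ≤
      ‖b‖ ^ 2 * ∑ q, ‖c q‖ ^ 2 := fun i c => mulVstar b (pt i) c
  have hcore := core hn (fun i => opS (M := M) (A i)) (fun i => opS (adj (A i)))
    (fun i => opT (N := N) (B i)) (fun i => opT (adj (B i)))
    (fun i x y => opS_adj (A i) x y)
    (fun i x y => by
      have := opT_adj (adj (B i)) x y
      rwa [adj_adj] at this)
    (fun i j x => opST (A i) (B j) x) (fun i j x => opST (adj (A i)) (B j) x)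
    ‖a‖ ‖b‖ (norm_nonneg _) (norm_nonneg _)
    (fun i x => opS_norm (A i) _ (norm_nonneg _) (hA i) x)
    (fun i x => opS_norm (adj (A i)) _ (norm_nonneg _) (hA' i) x)
    (fun i x => opT_norm (B i) _ (norm_nonneg _) (hB i) x)
    (fun i x => opT_norm (adj (B i)) _ (norm_nonneg _) (hB' i) x) cc
  have hcc : ‖cc‖ ^ 2 = ∑ q, ‖c q‖ ^ 2 := EuclideanSpace.norm_sq_eq _
  have hL : ∑ p : Fin N × Fin M, ‖∑ q : Fin N × Fin M,
      c q • blk pt e (a p.1 q.1) (b p.2 q.2)‖ ^ 2 =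
      ∑ r : ZMod n, ‖∑ j, chi n (r ^ 2 * j) • opS (A (j + r)) (opT (B j) cc)‖ ^ 2 := by
    have h1 : ∀ p : Fin N × Fin M, ‖∑ q : Fin N × Fin M,
        c q • blk pt e (a p.1 q.1) (b p.2 q.2)‖ ^ 2 =
        ∑ r : ZMod n, ‖∑ j, chi n (r ^ 2 * j) * (opS (A (j + r)) (opT (B j) cc)) p‖ ^ 2 := by
      intro p
      have h2 : ∑ q : Fin N × Fin M, c q • blk pt e (a p.1 q.1) (b p.2 q.2) =
          ∑ r : ZMod n, (∑ j, chi n (r ^ 2 * j) * (opS (A (j + r)) (opT (B j) cc)) p) • e r := by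
        simp only [blk, Finset.smul_sum, smul_smul]
        rw [Finset.sum_comm]
        refine Finset.sum_congr rfl (fun r _ => ?_)
        rw [← Finset.sum_smul]
        congr 1
        simp only [cf, Finset.mul_sum]
        rw [Finset.sum_comm]
        refine Finset.sum_congr rfl (fun j _ => ?_)
        rw [Fintype.sum_prod_type]
        simp only [opS, opT, A, B, cc, Finset.mul_sum]
        refine Finset.sum_congr rfl (fun q _ => Finset.sum_congr rfl (fun q' _ => ?_))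
        ring
      rw [h2, he]
    rw [Finset.sum_congr rfl (fun p _ => h1 p), Finset.sum_comm]
    refine Finset.sum_congr rfl (fun r _ => ?_)
    rw [EuclideanSpace.norm_sq_eq]
    refine Finset.sum_congr rfl (fun p _ => ?_)
    simp
  rw [hL]
  refine hcore.trans (le_of_eq ?_)
  rw [mul_pow, hcc]
  ring

end Pool.Agent.W665.JCB
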