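import Pool.Agent.W665.JCB.Gauss

/-!
# The operator inequality behind the joint complete boundedness
-/

set_option autoImplicit false

noncomputable section

namespace Pool.Agent.W665.JCB

open Finset

lemma core {n : ℕ} [Fact n.Prime] (hn : n ≠ 2) {E : Type*} [NormedAddCommGroup E]
    [InnerProductSpace ℂ E] (S S' T T' : ZMod n → E → E)
    (hS' : ∀ i x y, inner ℂ (S' i x) y = inner ℂ x (S i y))
    (hT' : ∀ j x y, inner ℂ (T j x) y = inner ℂ x (T' j y))
    (hc : ∀ i j x, S i (T j x) = T j (S i x)) (hc' : ∀ i j x, S' i (T j x) = T j (S' i x))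
    (α β : ℝ) (hα : 0 ≤ α) (hβ : 0 ≤ β)
    (bS : ∀ i x, ‖S i x‖ ≤ α * ‖x‖) (bS' : ∀ i x, ‖S' i x‖ ≤ α * ‖x‖)
    (bT : ∀ i x, ‖T i x‖ ≤ β * ‖x‖) (bT' : ∀ i x, ‖T' i x‖ ≤ β * ‖x‖) (c : E) :
    ∑ r : ZMod n, ‖∑ j, chi n (r ^ 2 * j) • S (j + r) (T j c)‖ ^ 2 ≤
      2 * (n : ℝ) ^ 2 * Real.sqrt n * (α * β * ‖c‖) ^ 2 := by
  have hexp : ∑ r : ZMod n, inner ℂ (∑ j, chi n (r ^ 2 * j) • S (j + r) (T j c))
      (∑ j, chi n (r ^ 2 * j) • S (j + r) (T j c)) =
      ∑ h : ZMod n, ∑ i : ZMod n, ∑ j : ZMod n, chi n (h * (i - j) ^ 2) *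
        inner ℂ (S' (i + h) (S i c)) (T' j (T (j + h) c)) := by
    have h1 : ∀ r : ZMod n, inner ℂ (∑ j, chi n (r ^ 2 * j) • S (j + r) (T j c))
      (∑ j, chi n (r ^ 2 * j) • S (j + r) (T j c)) =
        ∑ j : ZMod n, ∑ h : ZMod n, chi n (h * (j + r - j) ^ 2) *
        inner ℂ (S' (j + r + h) (S (j + r) c)) (T' j (T (j + h) c)) := by
      intro r
      rw [sum_inner]
      refine Finset.sum_congr rfl (fun j _ => ?_)
      rw [inner_sum]
      rw [← Equiv.sum_comp (Equiv.addLeft j)]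
      refine Finset.sum_congr rfl (fun h _ => ?_)
      simp only [Equiv.coe_addLeft]
      rw [inner_smul_left, inner_smul_right, chi_conj, ← mul_assoc, ← AddChar.map_add_eq_mul]
      have e1 : -(r ^ 2 * j) + r ^ 2 * (j + h) = h * (j + r - j) ^ 2 := by ring
      have e2 : j + h + r = j + r + h := by ring
      rw [e1, e2, ← hS', hc, hc', hT']
    rw [Finset.sum_congr rfl (fun r _ => h1 r), Finset.sum_comm]
    have h2 : ∀ j : ZMod n, ∑ r : ZMod n, ∑ h : ZMod n, chi n (h * (j + r - j) ^ 2) *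
        inner ℂ (S' (j + r + h) (S (j + r) c)) (T' j (T (j + h) c)) =
        ∑ h : ZMod n, ∑ i : ZMod n, chi n (h * (i - j) ^ 2) *
        inner ℂ (S' (i + h) (S i c)) (T' j (T (j + h) c)) := by
      intro j
      rw [Finset.sum_comm]
      refine Finset.sum_congr rfl (fun h _ => ?_)
      exact Equiv.sum_comp (Equiv.addLeft j) (fun i : ZMod n => chi n (h * (i - j) ^ 2) *
        inner ℂ (S' (i + h) (S i c)) (T' j (T (j + h) c)))
    rw [Finset.sum_congr rfl (fun j _ => h2 j), Finset.sum_comm]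
    refine Finset.sum_congr rfl (fun h _ => ?_)
    rw [Finset.sum_comm]
  set X : ℝ := (α * β * ‖c‖) ^ 2 with hX
  have hX0 : 0 ≤ X := sq_nonneg _
  have hu : ∀ h i : ZMod n, ‖S' (i + h) (S i c)‖ ≤ α * (α * ‖c‖) := fun h i =>
    (bS' _ _).trans (mul_le_mul_of_nonneg_left (bS _ _) hα)
  have hv : ∀ h j : ZMod n, ‖T' j (T (j + h) c)‖ ≤ β * (β * ‖c‖) := fun h j =>
    (bT' _ _).trans (mul_le_mul_of_nonneg_left (bT _ _) hβ)
  have hXe : (α * (α * ‖c‖)) * (β * (β * ‖c‖)) = X := by rw [hX]; ring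
  have hn1 : (1 : ℝ) ≤ n := by exact_mod_cast (Fact.out : n.Prime).one_le
  have hs1 : 1 ≤ Real.sqrt n := by rw [Real.one_le_sqrt]; exact hn1
  have hb : ∀ h : ZMod n, ‖∑ i : ZMod n, ∑ j : ZMod n, chi n (h * (i - j) ^ 2) *
        inner ℂ (S' (i + h) (S i c)) (T' j (T (j + h) c))‖ ≤
        (if h = 0 then (n : ℝ) ^ 2 * X else 0) + (n : ℝ) * Real.sqrt n * X := by
    intro h
    by_cases hh : h = 0
    · rw [if_pos hh]
      have : ‖∑ i : ZMod n, ∑ j : ZMod n, chi n (h * (i - j) ^ 2) *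
        inner ℂ (S' (i + h) (S i c)) (T' j (T (j + h) c))‖ ≤ (n : ℝ) ^ 2 * X := by
        calc ‖∑ i : ZMod n, ∑ j : ZMod n, chi n (h * (i - j) ^ 2) *
            inner ℂ (S' (i + h) (S i c)) (T' j (T (j + h) c))‖
            ≤ ∑ _i : ZMod n, ∑ _j : ZMod n, X := by
              refine norm_sum_le_of_le _ (fun i _ => norm_sum_le_of_le _ (fun j _ => ?_))
              rw [norm_mul, chi_norm, one_mul]
              refine (norm_inner_le_norm _ _).trans ?_
              rw [← hXe]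
              exact mul_le_mul (hu h i) (hv h j) (norm_nonneg _) (by positivity)
          _ = (n : ℝ) ^ 2 * X := by
              simp only [Finset.sum_const, Finset.card_univ, ZMod.card, nsmul_eq_mul]
              ring
      have h0 : 0 ≤ (n : ℝ) * Real.sqrt n * X := by positivity
      linarith
    · rw [if_neg hh, zero_add, ← hXe]
      exact bil hn h hh _ _ _ (by positivity) _ (by positivity) (fun i => hu h i)
        (fun j => hv h j)
  have hre : ∑ r : ZMod n, ‖∑ j, chi n (r ^ 2 * j) • S (j + r) (T j c)‖ ^ 2 =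
      (∑ r : ZMod n, inner ℂ (∑ j, chi n (r ^ 2 * j) • S (j + r) (T j c))
      (∑ j, chi n (r ^ 2 * j) • S (j + r) (T j c))).re := by
    rw [Complex.re_sum]
    refine Finset.sum_congr rfl (fun r _ => ?_)
    exact (inner_self_eq_norm_sq (𝕜 := ℂ) _).symm
  rw [hre, hexp]
  calc (∑ h : ZMod n, ∑ i : ZMod n, ∑ j : ZMod n, chi n (h * (i - j) ^ 2) *
        inner ℂ (S' (i + h) (S i c)) (T' j (T (j + h) c))).re
      ≤ ‖∑ h : ZMod n, ∑ i : ZMod n, ∑ j : ZMod n, chi n (h * (i - j) ^ 2) *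
        inner ℂ (S' (i + h) (S i c)) (T' j (T (j + h) c))‖ := Complex.re_le_norm _
    _ ≤ ∑ h : ZMod n, ((if h = 0 then (n : ℝ) ^ 2 * X else 0) + (n : ℝ) * Real.sqrt n * X) :=
        norm_sum_le_of_le _ (fun h _ => hb h)
    _ = (n : ℝ) ^ 2 * X + (n : ℝ) * ((n : ℝ) * Real.sqrt n * X) := by
        rw [Finset.sum_add_distrib]
        simp [ZMod.card]
    _ ≤ 2 * (n : ℝ) ^ 2 * Real.sqrt n * X := by
        have : (n : ℝ) ^ 2 * X ≤ (n : ℝ) ^ 2 * X * Real.sqrt n :=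
          le_mul_of_one_le_right (by positivity) hs1
        nlinarith

end Pool.Agent.W665.JCB
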