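import Mathlib

/-!
# Quadratic Gauss sums with vector coefficients, and the basic operator inequality
-/

set_option autoImplicit false

noncomputable section

namespace Pool.Agent.W665.JCB

open Finset

/-- the standard additive character of `ZMod n` -/
abbrev chi (n : ℕ) [NeZero n] : AddChar (ZMod n) ℂ := ZMod.stdAddChar

lemma chi_conj {n : ℕ} [NeZero n] (x : ZMod n) : (starRingEnd ℂ) (chi n x) = chi n (-x) :=
  (AddChar.map_neg_eq_conj (chi n) x).symm

lemma chi_norm {n : ℕ} [NeZero n] (x : ZMod n) : ‖chi n x‖ = 1 := AddChar.norm_apply (chi n) x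

lemma gaussC {n : ℕ} [Fact n.Prime] (hn : n ≠ 2) {E : Type*} [NormedAddCommGroup E]
    [InnerProductSpace ℂ E] (h : ZMod n) (hh : h ≠ 0) (v : ZMod n → E) :
    ∑ i : ZMod n, inner ℂ (∑ j, chi n (h * (i - j) ^ 2) • v j)
      (∑ j, chi n (h * (i - j) ^ 2) • v j) = (n : ℂ) * ∑ j, inner ℂ (v j) (v j) := by
  have h2 : (2 : ZMod n) ≠ 0 := by
    intro h0
    have : ((2 : ℕ) : ZMod n) = 0 := by exact_mod_cast h0
    rw [ZMod.natCast_eq_zero_iff] at this
    have hp : n.Prime := Fact.out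
    have := (Nat.prime_dvd_prime_iff_eq hp Nat.prime_two).1 this
    exact hn this
  have hexp : ∀ i : ZMod n, inner ℂ (∑ j, chi n (h * (i - j) ^ 2) • v j)
      (∑ j, chi n (h * (i - j) ^ 2) • v j) =
      ∑ j, ∑ j', chi n (i * (2 * h * (j - j'))) * (chi n (h * (j' ^ 2 - j ^ 2))
        * inner ℂ (v j) (v j')) := by
    intro i
    rw [sum_inner]
    refine Finset.sum_congr rfl (fun j _ => ?_)
    rw [inner_sum]
    refine Finset.sum_congr rfl (fun j' _ => ?_)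
    rw [inner_smul_left, inner_smul_right, chi_conj, ← mul_assoc, ← mul_assoc,
      ← AddChar.map_add_eq_mul, ← AddChar.map_add_eq_mul]
    congr 2
    ring
  rw [Finset.sum_congr rfl (fun i _ => hexp i), Finset.sum_comm]
  rw [Finset.mul_sum]
  refine Finset.sum_congr rfl (fun j _ => ?_)
  rw [Finset.sum_comm]
  have hin : ∀ j' : ZMod n, ∑ i : ZMod n, chi n (i * (2 * h * (j - j')))
      * (chi n (h * (j' ^ 2 - j ^ 2)) * inner ℂ (v j) (v j')) =
      if j' = j then (n : ℂ) * inner ℂ (v j) (v j) else 0 := by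
    intro j'
    rw [← Finset.sum_mul, AddChar.sum_mulShift _ (ZMod.isPrimitive_stdAddChar n)]
    by_cases hj : j' = j
    · subst hj
      simp [ZMod.card]
    · have hb : 2 * h * (j - j') ≠ 0 :=
        mul_ne_zero (mul_ne_zero h2 hh) (sub_ne_zero.2 (Ne.symm hj))
      simp [hb, hj]
  rw [Finset.sum_congr rfl (fun j' _ => hin j')]
  simp

lemma gauss {n : ℕ} [Fact n.Prime] (hn : n ≠ 2) {E : Type*} [NormedAddCommGroup E]
    [InnerProductSpace ℂ E] (h : ZMod n) (hh : h ≠ 0) (v : ZMod n → E) :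
    ∑ i : ZMod n, ‖∑ j, chi n (h * (i - j) ^ 2) • v j‖ ^ 2 = (n : ℝ) * ∑ j, ‖v j‖ ^ 2 := by
  have := gaussC hn h hh v
  simp only [inner_self_eq_norm_sq_to_K] at this
  apply Complex.ofReal_injective
  push_cast
  simpa using this

/-- bilinear estimate for one difference `h` -/
lemma bil {n : ℕ} [Fact n.Prime] (hn : n ≠ 2) {E : Type*} [NormedAddCommGroup E]
    [InnerProductSpace ℂ E] (h : ZMod n) (hh : h ≠ 0) (u v : ZMod n → E) (K : ℝ) (hK : 0 ≤ K)
    (L : ℝ) (hL : 0 ≤ L) (hu : ∀ i, ‖u i‖ ≤ K) (hv : ∀ j, ‖v j‖ ≤ L) :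
    ‖∑ i, ∑ j, chi n (h * (i - j) ^ 2) * inner ℂ (u i) (v j)‖ ≤
      (n : ℝ) * Real.sqrt n * (K * L) := by
  have h1 : ∑ i, ∑ j, chi n (h * (i - j) ^ 2) * inner ℂ (u i) (v j) =
      ∑ i, inner ℂ (u i) (∑ j, chi n (h * (i - j) ^ 2) • v j) := by
    refine Finset.sum_congr rfl (fun i _ => ?_)
    rw [inner_sum]
    refine Finset.sum_congr rfl (fun j _ => ?_)
    rw [inner_smul_right]
  rw [h1]
  have hg := gauss hn h hh v
  have hsum : ∑ i : ZMod n, ‖∑ j, chi n (h * (i - j) ^ 2) • v j‖ ≤ n * Real.sqrt n * L := by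
    have hcs := Finset.sum_mul_sq_le_sq_mul_sq (Finset.univ : Finset (ZMod n)) (fun _ => (1 : ℝ))
      (fun i => ‖∑ j, chi n (h * (i - j) ^ 2) • v j‖)
    simp only [one_mul, one_pow, Finset.sum_const, Finset.card_univ, ZMod.card, nsmul_eq_mul,
      mul_one] at hcs
    rw [hg] at hcs
    have hvs : ∑ j : ZMod n, ‖v j‖ ^ 2 ≤ n * L ^ 2 := by
      calc ∑ j : ZMod n, ‖v j‖ ^ 2 ≤ ∑ _j : ZMod n, L ^ 2 :=
            Finset.sum_le_sum (fun j _ => pow_le_pow_left₀ (norm_nonneg _) (hv j) 2)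
        _ = n * L ^ 2 := by simp [ZMod.card]
    have hn0 : (0 : ℝ) ≤ n := Nat.cast_nonneg n
    have h3 : (∑ i : ZMod n, ‖∑ j, chi n (h * (i - j) ^ 2) • v j‖) ^ 2 ≤
        (n * Real.sqrt n * L) ^ 2 := by
      calc (∑ i : ZMod n, ‖∑ j, chi n (h * (i - j) ^ 2) • v j‖) ^ 2
          ≤ n * (n * ∑ j : ZMod n, ‖v j‖ ^ 2) := hcs
        _ ≤ n * (n * (n * L ^ 2)) := by gcongr
        _ = (n * Real.sqrt n * L) ^ 2 := by
            rw [mul_pow, mul_pow, Real.sq_sqrt hn0]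
            ring
    exact le_of_sq_le_sq h3 (by positivity)
  calc ‖∑ i, inner ℂ (u i) (∑ j, chi n (h * (i - j) ^ 2) • v j)‖
      ≤ ∑ i, ‖inner ℂ (u i) (∑ j, chi n (h * (i - j) ^ 2) • v j)‖ := norm_sum_le _ _
    _ ≤ ∑ i, K * ‖∑ j, chi n (h * (i - j) ^ 2) • v j‖ := by
        refine Finset.sum_le_sum (fun i _ => ?_)
        exact (norm_inner_le_norm _ _).trans (mul_le_mul_of_nonneg_right (hu i) (norm_nonneg _))
    _ = K * ∑ i, ‖∑ j, chi n (h * (i - j) ^ 2) • v j‖ := by rw [Finset.mul_sum]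
    _ ≤ K * (n * Real.sqrt n * L) := mul_le_mul_of_nonneg_left hsum hK
    _ = (n : ℝ) * Real.sqrt n * (K * L) := by ring

end Pool.Agent.W665.JCB
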